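import Mathlib
import Pool.Agent.Helper130.Lim

open scoped ENNReal BigOperators Topology
open Filter

namespace Pool.Agent.Helper130

/-- Bounded real functions on `N`. -/
abbrev Linf (N : Type) : Type := lp (fun _ : N => ℝ) ∞

/-- Positive functionals. -/
def Pos {N : Type} (y : Linf N →L[ℝ] ℝ) : Prop := ∀ f : Linf N, (∀ n, 0 ≤ f n) → 0 ≤ y f

section Major

variable {N : Type}

theorem linf_norm_le {f : Linf N} {C : ℝ} (hC : 0 ≤ C) (h : ∀ n, |f n| ≤ C) : ‖f‖ ≤ C :=
  lp.norm_le_of_forall_le hC h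

theorem linf_apply_le (f : Linf N) (n : N) : |f n| ≤ ‖f‖ := lp.norm_apply_le_norm (by simp) f n

theorem linf_mul_apply (f g : Linf N) (n : N) : (f * g) n = f n * g n := by
  rw [lp.infty_coeFn_mul]; rfl

theorem linf_one_apply (n : N) : (1 : Linf N) n = 1 := by
  rw [lp.infty_coeFn_one]; rfl

/-- Every functional has a positive majorant of no larger norm. -/
theorem exists_majorant (ν : Linf N →L[ℝ] ℝ) : ∃ ρ : Linf N →L[ℝ] ℝ,
    (∀ f h : Linf N, (∀ n, |f n| ≤ h n) → |ν f| ≤ ρ h) ∧ ‖ρ‖ ≤ ‖ν‖ := by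
  obtain ⟨L, hL1, hL2⟩ := exists_genLim
  -- nearly norming sequence
  have hg : ∀ k : ℕ, ∃ g : Linf N, ‖g‖ ≤ 1 ∧ ‖ν‖ - 1 / ((k : ℝ) + 1) ≤ ν g := by
    intro k
    have hpos : (0 : ℝ) < 1 / ((k : ℝ) + 1) := by positivity
    by_cases hc : ‖ν‖ - 1 / ((k : ℝ) + 1) ≤ 0
    · exact ⟨0, by simp, by simpa using hc⟩
    · push Not at hc
      obtain ⟨x, hx1, hx2⟩ := ContinuousLinearMap.exists_lt_apply_of_lt_opNorm ν
        (show ‖ν‖ - 1 / ((k : ℝ) + 1) < ‖ν‖ by linarith)
      rcases le_total 0 (ν x) with h | h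
      · refine ⟨x, hx1.le, ?_⟩
        rw [Real.norm_eq_abs, abs_of_nonneg h] at hx2
        exact hx2.le
      · refine ⟨-x, by rw [norm_neg]; exact hx1.le, ?_⟩
        rw [Real.norm_eq_abs, abs_of_nonpos h] at hx2
        rw [map_neg]
        exact hx2.le
  choose g hg1 hg2 using hg
  have hbd : ∀ (f : Linf N) (k : ℕ), |ν (g k * f)| ≤ ‖ν‖ * ‖f‖ := by
    intro f k
    calc |ν (g k * f)| ≤ ‖ν‖ * ‖g k * f‖ := ν.le_opNorm _
      _ ≤ ‖ν‖ * (‖g k‖ * ‖f‖) := by gcongr; exact norm_mul_le _ _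
      _ ≤ ‖ν‖ * (1 * ‖f‖) := by gcongr; exact hg1 k
      _ = ‖ν‖ * ‖f‖ := by ring
  let B : Linf N → Linf ℕ := fun f => ⟨fun k => ν (g k * f), memℓp_infty ⟨‖ν‖ * ‖f‖, by
    rintro _ ⟨k, rfl⟩
    exact hbd f k⟩⟩
  have hB : ∀ f k, B f k = ν (g k * f) := fun f k => rfl
  have hBn : ∀ f, ‖B f‖ ≤ ‖ν‖ * ‖f‖ := fun f => linf_norm_le (by positivity) (hbd f)
  have hBadd : ∀ f f', B (f + f') = B f + B f' := by
    intro f f'
    apply lp.ext
    funext k
    rw [lp.coeFn_add, Pi.add_apply, hB, hB, hB, mul_add, map_add]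
  have hBsmul : ∀ (c : ℝ) f, B (c • f) = c • B f := by
    intro c f
    apply lp.ext
    funext k
    rw [lp.coeFn_smul, Pi.smul_apply, hB, hB, mul_smul_comm, map_smul]
  let ρ : Linf N →L[ℝ] ℝ := LinearMap.mkContinuous
    { toFun := fun f => L (B f)
      map_add' := fun f f' => by rw [hBadd, map_add]
      map_smul' := fun c f => by rw [hBsmul, map_smul]; rfl }
    ‖ν‖ (fun f => (hL1 _).trans (hBn f))
  have hρ : ∀ f, ρ f = L (B f) := fun f => rfl
  have hρ1 : ρ 1 = ‖ν‖ := by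
    rw [hρ]
    apply hL2
    have hlo : Tendsto (fun k : ℕ => ‖ν‖ - 1 / ((k : ℝ) + 1)) atTop (𝓝 ‖ν‖) := by
      have := (tendsto_one_div_add_atTop_nhds_zero_nat (𝕜 := ℝ)).const_sub ‖ν‖
      simpa using this
    refine tendsto_of_tendsto_of_tendsto_of_le_of_le hlo tendsto_const_nhds ?_ ?_
    · intro k
      simp only
      rw [hB, mul_one]
      exact hg2 k
    · intro k
      simp only
      rw [hB, mul_one]
      calc ν (g k) ≤ ‖ν (g k)‖ := le_abs_self _
        _ ≤ ‖ν‖ * ‖g k‖ := ν.le_opNorm _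
        _ ≤ ‖ν‖ * 1 := by gcongr; exact hg1 k
        _ = ‖ν‖ := mul_one _
  have key : ∀ f h : Linf N, (∀ n, |f n| ≤ h n) → ν f ≤ ρ h := by
    intro f h hfh
    set H := ‖h‖ with hH
    have h0 : 0 ≤ H := norm_nonneg _
    have hle : ∀ n, h n ≤ H := fun n => (le_abs_self _).trans (linf_apply_le h n)
    -- `ν f + ρ (H • 1 - h) ≤ H ‖ν‖`
    have h1 : ν f + ρ (H • (1 : Linf N) - h) ≤ H * ‖ν‖ := by
      let cst : Linf ℕ := ⟨fun _ => ν f, memℓp_infty ⟨|ν f|, by rintro _ ⟨k, rfl⟩; exact le_rfl⟩⟩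
      have hc1 : L cst = ν f := hL2 cst _ tendsto_const_nhds
      have hc2 : ν f + ρ (H • (1 : Linf N) - h) = L (cst + B (H • (1 : Linf N) - h)) := by
        rw [map_add, hc1, hρ]
      rw [hc2]
      calc L (cst + B (H • (1 : Linf N) - h)) ≤ |L (cst + B (H • (1 : Linf N) - h))| := le_abs_self _
        _ ≤ ‖cst + B (H • (1 : Linf N) - h)‖ := hL1 _
        _ ≤ H * ‖ν‖ := by
          apply linf_norm_le (by positivity)
          intro k
          have e1 : (cst + B (H • (1 : Linf N) - h)) k = ν (f + g k * (H • (1 : Linf N) - h)) := by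
            rw [lp.coeFn_add, Pi.add_apply, hB, map_add]
          rw [e1]
          calc |ν (f + g k * (H • (1 : Linf N) - h))|
              ≤ ‖ν‖ * ‖f + g k * (H • (1 : Linf N) - h)‖ := ν.le_opNorm _
            _ ≤ ‖ν‖ * H := by
              gcongr
              apply linf_norm_le h0
              intro n
              rw [lp.coeFn_add, Pi.add_apply, linf_mul_apply, lp.coeFn_sub, Pi.sub_apply,
                lp.coeFn_smul, Pi.smul_apply, linf_one_apply, smul_eq_mul, mul_one]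
              have hgk : |g k n| ≤ 1 := (linf_apply_le (g k) n).trans (hg1 k)
              have hHh : 0 ≤ H - h n := by linarith [hle n]
              calc |f n + g k n * (H - h n)| ≤ |f n| + |g k n * (H - h n)| := abs_add_le _ _
                _ = |f n| + |g k n| * (H - h n) := by rw [abs_mul, abs_of_nonneg hHh]
                _ ≤ h n + 1 * (H - h n) := by
                  gcongr
                  exact hfh n
                _ = H := by ring
            _ = H * ‖ν‖ := mul_comm _ _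
    have h2 : ρ (H • (1 : Linf N) - h) = H * ‖ν‖ - ρ h := by
      rw [map_sub, map_smul, hρ1, smul_eq_mul]
    linarith
  refine ⟨ρ, ?_, ?_⟩
  · intro f h hfh
    rw [abs_le]
    constructor
    · have := key (-f) h (fun n => by rw [lp.coeFn_neg, Pi.neg_apply, abs_neg]; exact hfh n)
      rw [map_neg] at this
      linarith
    · exact key f h hfh
  · exact LinearMap.mkContinuous_norm_le _ (norm_nonneg _) _

theorem Pos.of_majorant {ν ρ : Linf N →L[ℝ] ℝ}
    (h : ∀ f h : Linf N, (∀ n, |f n| ≤ h n) → |ν f| ≤ ρ h) : Pos ρ := by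
  intro f hf
  have := h 0 f (fun n => by
    rw [lp.coeFn_zero]
    simpa using hf n)
  simpa using this

theorem Pos.sub_of_majorant {ν ρ : Linf N →L[ℝ] ℝ}
    (h : ∀ f h : Linf N, (∀ n, |f n| ≤ h n) → |ν f| ≤ ρ h) : Pos (ρ - ν) := by
  intro f hf
  have h1 := h f f (fun n => by rw [abs_of_nonneg (hf n)])
  rw [ContinuousLinearMap.sub_apply]
  linarith [le_abs_self (ν f)]

theorem Pos.add {y z : Linf N →L[ℝ] ℝ} (hy : Pos y) (hz : Pos z) : Pos (y + z) := by
  intro f hf
  rw [ContinuousLinearMap.add_apply]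
  exact add_nonneg (hy f hf) (hz f hf)

theorem Pos.mono {y : Linf N →L[ℝ] ℝ} (hy : Pos y) {f g : Linf N} (h : ∀ n, f n ≤ g n) :
    y f ≤ y g := by
  have := hy (g - f) (fun n => by
    rw [lp.coeFn_sub, Pi.sub_apply]
    linarith [h n])
  rw [map_sub] at this
  linarith

/-- Approximate Radon-Nikodym theorem for bounded densities. -/
theorem exists_density {μ ν : Linf N →L[ℝ] ℝ} (hμ : Pos μ) {c : ℝ} (hc : 0 ≤ c)
    (h : ∀ f h : Linf N, (∀ n, |f n| ≤ h n) → |ν f| ≤ c * μ h) {ε : ℝ} (hε : 0 < ε) :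
    ∃ f : Linf N, ∀ g : Linf N, ‖g‖ ≤ 1 → |ν g - μ (f * g)| ≤ ε := by
  let I : Linf N → ℝ := fun f => μ (f * f) - 2 * ν f
  set m := μ 1 with hm
  have hm0 : 0 ≤ m := hμ 1 (fun n => by rw [linf_one_apply]; exact zero_le_one)
  have hIbd : ∀ f, -(c ^ 2 * m) ≤ I f := by
    intro f
    -- `2 c |f| ≤ f² + c²`
    let a : Linf N := ⟨fun n => |f n|, memℓp_infty ⟨‖f‖, by
      rintro _ ⟨n, rfl⟩
      simp only [Real.norm_eq_abs, abs_abs]
      exact linf_apply_le f n⟩⟩
    have ha : ∀ n, a n = |f n| := fun n => rfl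
    have h1 : |ν f| ≤ c * μ a := h f a (fun n => le_rfl)
    have h2 : (2 * c) * μ a ≤ μ (f * f) + c ^ 2 * m := by
      have e1 : (2 * c) * μ a = μ ((2 * c) • a) := by rw [map_smul, smul_eq_mul]
      have e2 : μ (f * f) + c ^ 2 * m = μ (f * f + (c ^ 2) • (1 : Linf N)) := by
        rw [map_add, map_smul, smul_eq_mul]
      rw [e1, e2]
      apply hμ.mono
      intro n
      rw [lp.coeFn_smul, Pi.smul_apply, lp.coeFn_add, Pi.add_apply, linf_mul_apply, lp.coeFn_smul,
        Pi.smul_apply, linf_one_apply, ha]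
      simp only [smul_eq_mul]
      nlinarith [sq_nonneg (|f n| - c), sq_abs (f n)]
    have h3 := le_abs_self (ν f)
    simp only [I]
    nlinarith
  have hbdd : BddBelow (Set.range I) := ⟨_, by rintro _ ⟨f, rfl⟩; exact hIbd f⟩
  -- choose the tolerance
  set s : ℝ := 2 * ε / (1 + m) with hs
  have h1m : 0 < 1 + m := by linarith
  have hs0 : 0 < s := by positivity
  obtain ⟨_, ⟨f, rfl⟩, hf⟩ := exists_lt_of_csInf_lt (Set.range_nonempty I)
    (show sInf (Set.range I) < sInf (Set.range I) + s ^ 2 by nlinarith)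
  refine ⟨f, fun g hg => ?_⟩
  set D := μ (f * g) - ν g with hD
  have hgg : μ (g * g) ≤ m := by
    apply hμ.mono
    intro n
    rw [linf_mul_apply, linf_one_apply]
    have := (linf_apply_le g n).trans hg
    nlinarith [abs_nonneg (g n), sq_abs (g n)]
  have hquad : ∀ t : ℝ, 0 ≤ s ^ 2 + 2 * t * D + t ^ 2 * m := by
    intro t
    have h1 : sInf (Set.range I) ≤ I (f + t • g) := csInf_le hbdd ⟨_, rfl⟩
    have h2 : I (f + t • g) = I f + 2 * t * D + t ^ 2 * μ (g * g) := by
      have e1 : (f + t • g) * (f + t • g) = f * f + (2 * t) • (f * g) + (t ^ 2) • (g * g) := by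
        apply lp.ext
        funext n
        simp only [linf_mul_apply, lp.coeFn_add, lp.coeFn_smul, Pi.add_apply, Pi.smul_apply,
          smul_eq_mul]
        ring
      simp only [I]
      rw [e1]
      simp only [map_add, map_smul, smul_eq_mul, hD]
      ring
    have h3 : t ^ 2 * μ (g * g) ≤ t ^ 2 * m := by gcongr
    linarith
  have hDle : 2 * |D| ≤ s * (1 + m) := by
    rcases le_total 0 D with hD0 | hD0
    · have := hquad (-s)
      rw [abs_of_nonneg hD0]
      nlinarith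
    · have := hquad s
      rw [abs_of_nonpos hD0]
      nlinarith
  have hfin : s * (1 + m) = 2 * ε := by
    rw [hs]; field_simp
  have : |ν g - μ (f * g)| = |D| := by rw [hD, abs_sub_comm]
  rw [this]
  linarith

end Major

end Pool.Agent.Helper130
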