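import Mathlib
import Pool.Agent.Helper130.Major

open scoped ENNReal BigOperators Topology
open Filter MeasureTheory TopologicalSpace

namespace Pool.Agent.Helper130

section Meas

variable {N : Type} {Ω : Type} [TopologicalSpace Ω] [CompactSpace Ω]

/-- Pull-back of a continuous function. -/
noncomputable def pull (φ : N → Ω) (h : C(Ω, ℝ)) : Linf N :=
  ⟨fun n => h (φ n), memℓp_infty ⟨‖h‖, by rintro _ ⟨n, rfl⟩; exact h.norm_coe_le_norm _⟩⟩

theorem pull_apply (φ : N → Ω) (h : C(Ω, ℝ)) (n : N) : pull φ h n = h (φ n) := rfl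

theorem pull_add (φ : N → Ω) (h k : C(Ω, ℝ)) : pull φ (h + k) = pull φ h + pull φ k := rfl

theorem pull_sub (φ : N → Ω) (h k : C(Ω, ℝ)) : pull φ (h - k) = pull φ h - pull φ k := rfl

theorem pull_smul (φ : N → Ω) (c : ℝ) (h : C(Ω, ℝ)) : pull φ (c • h) = c • pull φ h := rfl

theorem pull_mul (φ : N → Ω) (h k : C(Ω, ℝ)) : pull φ (h * k) = pull φ h * pull φ k := rfl

theorem pull_one (φ : N → Ω) : pull φ (1 : C(Ω, ℝ)) = 1 := rfl

variable [T2Space Ω] [MeasurableSpace Ω] [BorelSpace Ω]

theorem exists_meas (φ : N → Ω) {y : Linf N →L[ℝ] ℝ} (hy : Pos y) :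
    ∃ m : Measure Ω, IsFiniteMeasure m ∧ ∀ h : C(Ω, ℝ), ∫ x, h x ∂m = y (pull φ h) := by
  let Λ : CompactlySupportedContinuousMap Ω ℝ →ₚ[ℝ] ℝ :=
  { toFun := fun g => y (pull φ g.toContinuousMap)
    map_add' := fun g g' => by
      have : pull φ (g + g').toContinuousMap =
        pull φ g.toContinuousMap + pull φ g'.toContinuousMap := rfl
      rw [this, map_add]
    map_smul' := fun c g => by
      have : pull φ (c • g).toContinuousMap = c • pull φ g.toContinuousMap := rfl
      rw [this, map_smul]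
      rfl
    monotone' := fun g g' hgg' => hy.mono fun n => hgg' (φ n) }
  refine ⟨RealRMK.rieszMeasure Λ, by infer_instance, fun h => ?_⟩
  let h' : CompactlySupportedContinuousMap Ω ℝ :=
  { toContinuousMap := h
    hasCompactSupport' := HasCompactSupport.of_compactSpace _ }
  exact RealRMK.integral_rieszMeasure Λ h'

theorem meas_unique [PseudoMetrizableSpace Ω] {m m' : Measure Ω} [IsFiniteMeasure m]
    [IsFiniteMeasure m'] (h : ∀ k : C(Ω, ℝ), ∫ x, k x ∂m = ∫ x, k x ∂m') : m = m' := by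
  let _ := pseudoMetrizableSpacePseudoMetric Ω
  apply ext_of_forall_integral_eq_of_IsFiniteMeasure
  intro f
  exact h f.toContinuousMap

end Meas

section RN

variable {Ω : Type} [MeasurableSpace Ω]

/-- The density of the absolutely continuous part. -/
noncomputable def rnL1 (μ : Measure Ω) (m : Measure Ω) [IsFiniteMeasure m] : Ω →₁[μ] ℝ :=
  Integrable.toL1 (fun x => (m.rnDeriv μ x).toReal) Measure.integrable_toReal_rnDeriv

theorem rnL1_add (μ m m' : Measure Ω) [IsFiniteMeasure μ] [IsFiniteMeasure m] [IsFiniteMeasure m'] :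
    rnL1 μ (m + m') = rnL1 μ m + rnL1 μ m' := by
  unfold rnL1
  rw [← Integrable.toL1_add]
  rw [Integrable.toL1_eq_toL1_iff]
  filter_upwards [Measure.rnDeriv_add m m' μ, Measure.rnDeriv_lt_top m μ, Measure.rnDeriv_lt_top m' μ]
    with x hx h1 h2
  rw [hx]
  simp only [Pi.add_apply]
  rw [ENNReal.toReal_add h1.ne h2.ne]

theorem norm_rnL1_le (μ m : Measure Ω) [IsFiniteMeasure μ] [IsFiniteMeasure m] :
    ‖rnL1 μ m‖ ≤ m.real Set.univ := by
  unfold rnL1
  rw [Integrable.norm_toL1_eq_lintegral_norm]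
  have h1 : ∫⁻ a, ENNReal.ofReal ‖(m.rnDeriv μ a).toReal‖ ∂μ ≤ m Set.univ := by
    refine le_trans ?_ (Measure.lintegral_rnDeriv_le (μ := m) (ν := μ))
    apply lintegral_mono
    intro a
    simp only
    rw [Real.norm_eq_abs, abs_of_nonneg ENNReal.toReal_nonneg]
    exact ENNReal.ofReal_toReal_le
  exact ENNReal.toReal_mono (measure_ne_top _ _) h1

theorem rnL1_withDensity (μ : Measure Ω) [IsFiniteMeasure μ] (h : Ω → ℝ) (hm : Measurable h)
    (h0 : ∀ x, 0 ≤ h x) (hi : Integrable h μ)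
    [IsFiniteMeasure (μ.withDensity (fun x => ENNReal.ofReal (h x)))] :
    rnL1 μ (μ.withDensity (fun x => ENNReal.ofReal (h x))) = hi.toL1 h := by
  unfold rnL1
  rw [Integrable.toL1_eq_toL1_iff]
  filter_upwards [Measure.rnDeriv_withDensity μ (f := fun x => ENNReal.ofReal (h x)) (by fun_prop)]
    with x hx
  rw [hx, ENNReal.toReal_ofReal (h0 x)]

end RN

section Factor

variable {N : Type} {Ω : Type} [TopologicalSpace Ω] [CompactSpace Ω]
  [T2Space Ω] [MeasurableSpace Ω] [BorelSpace Ω]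

open Classical in
/-- The image measure of a positive functional. -/
noncomputable def measOf (φ : N → Ω) (y : Linf N →L[ℝ] ℝ) : Measure Ω :=
  if h : Pos y then (exists_meas φ h).choose else 0

instance (φ : N → Ω) (y : Linf N →L[ℝ] ℝ) : IsFiniteMeasure (measOf φ y) := by
  unfold measOf
  split_ifs with h
  · exact (exists_meas φ h).choose_spec.1
  · infer_instance

theorem integral_measOf (φ : N → Ω) {y : Linf N →L[ℝ] ℝ} (hy : Pos y) (h : C(Ω, ℝ)) :
    ∫ x, h x ∂(measOf φ y) = y (pull φ h) := by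
  unfold measOf
  rw [dif_pos hy]
  exact (exists_meas φ hy).choose_spec.2 h

theorem real_measOf (φ : N → Ω) {y : Linf N →L[ℝ] ℝ} (hy : Pos y) :
    (measOf φ y).real Set.univ ≤ ‖y‖ := by
  have h1 := integral_measOf φ hy 1
  rw [pull_one] at h1
  simp only [ContinuousMap.one_apply, integral_const, smul_eq_mul, mul_one] at h1
  rw [h1]
  calc y 1 ≤ ‖y 1‖ := le_abs_self _
    _ ≤ ‖y‖ * ‖(1 : Linf N)‖ := y.le_opNorm _
    _ ≤ ‖y‖ * 1 := by
      gcongr
      exact linf_norm_le zero_le_one (fun n => by rw [linf_one_apply]; simp)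
    _ = ‖y‖ := mul_one _

theorem measOf_add [PseudoMetrizableSpace Ω] (φ : N → Ω) {y z : Linf N →L[ℝ] ℝ} (hy : Pos y)
    (hz : Pos z) : measOf φ (y + z) = measOf φ y + measOf φ z := by
  apply meas_unique
  intro k
  have hi : ∀ (m : Measure Ω) [IsFiniteMeasure m], Integrable (fun x => k x) m := fun m _ =>
    (BoundedContinuousFunction.mkOfCompact k).integrable m
  rw [integral_measOf φ (hy.add hz), integral_add_measure (hi _) (hi _), integral_measOf φ hy,
    integral_measOf φ hz]
  rfl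

end Factor

end Pool.Agent.Helper130
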