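import Mathlib
import Pool.Agent.Helper130.Meas

open scoped ENNReal BigOperators Topology
open Filter MeasureTheory TopologicalSpace

namespace Pool.Agent.Helper130

section Factor

variable {N : Type} {Ω : Type} [TopologicalSpace Ω] [CompactSpace Ω]
  [T2Space Ω] [MeasurableSpace Ω] [BorelSpace Ω] [PseudoMetrizableSpace Ω]

/-- A positive majorant of a functional. -/
noncomputable def maj (y : Linf N →L[ℝ] ℝ) : Linf N →L[ℝ] ℝ := (exists_majorant y).choose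

theorem maj_spec (y : Linf N →L[ℝ] ℝ) :
    ∀ f h : Linf N, (∀ n, |f n| ≤ h n) → |y f| ≤ maj y h := (exists_majorant y).choose_spec.1

theorem norm_maj_le (y : Linf N →L[ℝ] ℝ) : ‖maj y‖ ≤ ‖y‖ := (exists_majorant y).choose_spec.2

theorem pos_maj (y : Linf N →L[ℝ] ℝ) : Pos (maj y) := Pos.of_majorant (maj_spec y)

theorem pos_maj_sub (y : Linf N →L[ℝ] ℝ) : Pos (maj y - y) := Pos.sub_of_majorant (maj_spec y)

/-- The absolutely continuous part, on positive functionals. -/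
noncomputable def Gop (φ : N → Ω) (μ y : Linf N →L[ℝ] ℝ) : Ω →₁[measOf φ μ] ℝ :=
  rnL1 (measOf φ μ) (measOf φ y)

theorem rnL1_congr {μ m m' : Measure Ω} [IsFiniteMeasure m] [IsFiniteMeasure m'] (h : m = m') :
    rnL1 μ m = rnL1 μ m' := by
  subst h
  rfl

theorem Gop_add (φ : N → Ω) (μ : Linf N →L[ℝ] ℝ) {y z : Linf N →L[ℝ] ℝ} (hy : Pos y)
    (hz : Pos z) : Gop φ μ (y + z) = Gop φ μ y + Gop φ μ z := by
  unfold Gop
  rw [← rnL1_add]
  exact rnL1_congr (measOf_add φ hy hz)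

theorem norm_Gop_le (φ : N → Ω) (μ : Linf N →L[ℝ] ℝ) {y : Linf N →L[ℝ] ℝ} (hy : Pos y) :
    ‖Gop φ μ y‖ ≤ ‖y‖ :=
  (norm_rnL1_le _ _).trans (real_measOf φ hy)

/-- The absolutely continuous part, in general. -/
noncomputable def Ffun (φ : N → Ω) (μ y : Linf N →L[ℝ] ℝ) : Ω →₁[measOf φ μ] ℝ :=
  Gop φ μ (maj y) - Gop φ μ (maj y - y)

theorem Ffun_eq (φ : N → Ω) (μ : Linf N →L[ℝ] ℝ) {a b : Linf N →L[ℝ] ℝ} (ha : Pos a)
    (hb : Pos b) : Ffun φ μ (a - b) = Gop φ μ a - Gop φ μ b := by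
  unfold Ffun
  have h1 : Gop φ μ (maj (a - b)) + Gop φ μ b = Gop φ μ (maj (a - b) - (a - b)) + Gop φ μ a := by
    rw [← Gop_add φ μ (pos_maj _) hb, ← Gop_add φ μ (pos_maj_sub _) ha]
    congr 1
    abel
  rw [sub_eq_sub_iff_add_eq_add, h1, add_comm]

theorem Ffun_add (φ : N → Ω) (μ y z : Linf N →L[ℝ] ℝ) :
    Ffun φ μ (y + z) = Ffun φ μ y + Ffun φ μ z := by
  have h1 : y + z = (maj y + maj z) - ((maj y - y) + (maj z - z)) := by abel
  rw [h1, Ffun_eq φ μ ((pos_maj y).add (pos_maj z)) ((pos_maj_sub y).add (pos_maj_sub z)),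
    Gop_add φ μ (pos_maj y) (pos_maj z), Gop_add φ μ (pos_maj_sub y) (pos_maj_sub z)]
  unfold Ffun
  abel

theorem norm_Ffun_le (φ : N → Ω) (μ y : Linf N →L[ℝ] ℝ) : ‖Ffun φ μ y‖ ≤ 3 * ‖y‖ := by
  unfold Ffun
  calc _ ≤ ‖Gop φ μ (maj y)‖ + ‖Gop φ μ (maj y - y)‖ := norm_sub_le _ _
    _ ≤ ‖maj y‖ + ‖maj y - y‖ := add_le_add (norm_Gop_le φ μ (pos_maj y))
        (norm_Gop_le φ μ (pos_maj_sub y))
    _ ≤ ‖maj y‖ + (‖maj y‖ + ‖y‖) := by gcongr; exact norm_sub_le _ _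
    _ ≤ 3 * ‖y‖ := by linarith [norm_maj_le y]

/-- The absolutely continuous part as an operator. -/
noncomputable def Fop (φ : N → Ω) (μ : Linf N →L[ℝ] ℝ) :
    (Linf N →L[ℝ] ℝ) →L[ℝ] (Ω →₁[measOf φ μ] ℝ) :=
  AddMonoidHom.toRealLinearMap
    (AddMonoidHom.mk' (Ffun φ μ) (Ffun_add φ μ))
    (AddMonoidHomClass.continuous_of_bound _ 3 (norm_Ffun_le φ μ))

theorem Fop_apply (φ : N → Ω) (μ y : Linf N →L[ℝ] ℝ) : Fop φ μ y = Ffun φ μ y := rfl

/-- Multiplication of a functional by a bounded function. -/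
noncomputable def mulF (μ : Linf N →L[ℝ] ℝ) (f : Linf N) : Linf N →L[ℝ] ℝ :=
  μ.comp (ContinuousLinearMap.mul ℝ (Linf N) f)

theorem mulF_apply (μ : Linf N →L[ℝ] ℝ) (f g : Linf N) : mulF μ f g = μ (f * g) := rfl

theorem mulF_pos {μ : Linf N →L[ℝ] ℝ} (hμ : Pos μ) {f : Linf N} (hf : ∀ n, 0 ≤ f n) :
    Pos (mulF μ f) := by
  intro g hg
  rw [mulF_apply]
  apply hμ
  intro n
  rw [linf_mul_apply]
  exact mul_nonneg (hf n) (hg n)

theorem measOf_mulF (φ : N → Ω) {μ : Linf N →L[ℝ] ℝ} (hμ : Pos μ) (h : C(Ω, ℝ))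
    (h0 : ∀ x, 0 ≤ h x) :
    measOf φ (mulF μ (pull φ h)) =
      (measOf φ μ).withDensity (fun x => ENNReal.ofReal (h x)) := by
  have hfin : IsFiniteMeasure ((measOf φ μ).withDensity (fun x => ENNReal.ofReal (h x))) := by
    apply isFiniteMeasure_withDensity_ofReal
    exact ((BoundedContinuousFunction.mkOfCompact h).integrable (measOf φ μ)).2
  apply meas_unique
  intro k
  rw [integral_measOf φ (mulF_pos hμ (fun n => h0 (φ n))), mulF_apply, ← pull_mul,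
    ← integral_measOf φ hμ, integral_withDensity_eq_integral_toReal_smul]
  · apply integral_congr_ae
    filter_upwards with x
    rw [ENNReal.toReal_ofReal (h0 x)]
    rfl
  · fun_prop
  · filter_upwards with x
    exact ENNReal.ofReal_lt_top

theorem Gop_mulF (φ : N → Ω) {μ : Linf N →L[ℝ] ℝ} (hμ : Pos μ) (h : C(Ω, ℝ))
    (h0 : ∀ x, 0 ≤ h x) :
    Gop φ μ (mulF μ (pull φ h)) = ContinuousMap.toLp 1 (measOf φ μ) ℝ h := by
  have hfin : IsFiniteMeasure ((measOf φ μ).withDensity (fun x => ENNReal.ofReal (h x))) := by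
    rw [← measOf_mulF φ hμ h h0]
    infer_instance
  have hi : Integrable (fun x => h x) (measOf φ μ) :=
    (BoundedContinuousFunction.mkOfCompact h).integrable (measOf φ μ)
  unfold Gop
  rw [rnL1_congr (measOf_mulF φ hμ h h0), rnL1_withDensity (measOf φ μ) (fun x => h x)
    (by fun_prop) h0 hi]
  rfl

end Factor

end Pool.Agent.Helper130
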