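import Mathlib
import Pool.Agent.Helper130.Factor

open scoped ENNReal BigOperators Topology
open Filter MeasureTheory TopologicalSpace

namespace Pool.Agent.Helper130

theorem Pos.abs_le {N : Type} {μ : Linf N →L[ℝ] ℝ} (hμ : Pos μ) {f h : Linf N}
    (hfh : ∀ n, |f n| ≤ h n) : |μ f| ≤ μ h := by
  rw [_root_.abs_le]
  constructor
  · rw [← map_neg]
    apply hμ.mono
    intro n
    rw [lp.coeFn_neg, Pi.neg_apply]
    linarith [neg_abs_le (f n), hfh n]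
  · apply hμ.mono
    intro n
    linarith [le_abs_self (f n), hfh n]

section Proj

variable {N : Type} {Ω : Type} [TopologicalSpace Ω] [CompactSpace Ω]
  [T2Space Ω] [MeasurableSpace Ω] [BorelSpace Ω] [PseudoMetrizableSpace Ω]
  [SecondCountableTopology Ω]

/-- The densities as functionals, on continuous functions. -/
noncomputable def u₀ (φ : N → Ω) (μ : Linf N →L[ℝ] ℝ) : C(Ω, ℝ) →ₗ[ℝ] (Linf N →L[ℝ] ℝ) where
  toFun := fun h => mulF μ (pull φ h)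
  map_add' := fun h k => by
    ext g
    simp only [mulF_apply, pull_add, add_mul, map_add]
    rfl
  map_smul' := fun c h => by
    ext g
    simp only [mulF_apply, pull_smul, smul_mul_assoc, map_smul]
    rfl

theorem u₀_apply (φ : N → Ω) (μ : Linf N →L[ℝ] ℝ) (h : C(Ω, ℝ)) :
    u₀ φ μ h = mulF μ (pull φ h) := rfl

theorem norm_u₀_le (φ : N → Ω) {μ : Linf N →L[ℝ] ℝ} (hμ : Pos μ) (h : C(Ω, ℝ)) :
    ‖u₀ φ μ h‖ ≤ 1 * ‖ContinuousMap.toLp 1 (measOf φ μ) ℝ h‖ := by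
  have hn : ‖ContinuousMap.toLp (E := ℝ) 1 (measOf φ μ) ℝ h‖ = μ (pull φ |h|) := by
    rw [L1.norm_eq_integral_norm, ← integral_measOf φ hμ]
    apply integral_congr_ae
    filter_upwards [ContinuousMap.coeFn_toLp (p := 1) (𝕜 := ℝ) (measOf φ μ) h] with x hx
    rw [hx]
    rfl
  have hpos : 0 ≤ μ (pull φ |h|) := hμ _ (fun n => by
    rw [pull_apply]
    exact abs_nonneg _)
  rw [hn, one_mul]
  apply ContinuousLinearMap.opNorm_le_bound _ hpos
  intro g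
  rw [u₀_apply, mulF_apply, Real.norm_eq_abs]
  have h1 : μ (pull φ |h|) * ‖g‖ = μ (‖g‖ • pull φ |h|) := by
    rw [map_smul, smul_eq_mul, mul_comm]
  rw [h1]
  apply hμ.abs_le
  intro n
  rw [linf_mul_apply, pull_apply, lp.coeFn_smul, Pi.smul_apply, pull_apply, smul_eq_mul, abs_mul,
    mul_comm]
  apply mul_le_mul (linf_apply_le g n) le_rfl (abs_nonneg _) (norm_nonneg _)

/-- The embedding of `L¹` of the image measure. -/
noncomputable def uop (φ : N → Ω) (μ : Linf N →L[ℝ] ℝ) :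
    (Ω →₁[measOf φ μ] ℝ) →L[ℝ] (Linf N →L[ℝ] ℝ) :=
  (u₀ φ μ).extendOfNorm (ContinuousMap.toLp (E := ℝ) 1 (measOf φ μ) ℝ).toLinearMap

theorem uop_toLp (φ : N → Ω) {μ : Linf N →L[ℝ] ℝ} (hμ : Pos μ) (h : C(Ω, ℝ)) :
    uop φ μ (ContinuousMap.toLp (E := ℝ) 1 (measOf φ μ) ℝ h) = mulF μ (pull φ h) :=
  LinearMap.extendOfNorm_eq
    (ContinuousMap.toLp_denseRange (p := 1) (μ := measOf φ μ) (E := ℝ) ℝ (by simp))
    ⟨1, norm_u₀_le φ hμ⟩ h

theorem Fop_mulF (φ : N → Ω) {μ : Linf N →L[ℝ] ℝ} (hμ : Pos μ) (h : C(Ω, ℝ)) :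
    Fop φ μ (mulF μ (pull φ h)) = ContinuousMap.toLp (E := ℝ) 1 (measOf φ μ) ℝ h := by
  have h1 : h = (h ⊔ 0) - ((-h) ⊔ 0) := by
    ext x
    simp only [ContinuousMap.coe_sub, ContinuousMap.coe_sup, Pi.sub_apply, Pi.sup_apply,
      ContinuousMap.coe_zero, Pi.zero_apply, ContinuousMap.coe_neg, Pi.neg_apply]
    rcases le_total 0 (h x) with h0 | h0
    · rw [sup_of_le_left h0, sup_of_le_right (by linarith)]; ring
    · rw [sup_of_le_right h0, sup_of_le_left (by linarith)]; ring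
  have hp : ∀ x, 0 ≤ (h ⊔ 0) x := fun x => by
    simp
  have hn : ∀ x, 0 ≤ ((-h) ⊔ 0) x := fun x => by
    simp
  have h2 : mulF μ (pull φ h) = mulF μ (pull φ (h ⊔ 0)) - mulF μ (pull φ ((-h) ⊔ 0)) := by
    conv_lhs => rw [h1]
    rw [← u₀_apply, map_sub]
    rfl
  rw [h2, Fop_apply, Ffun_eq φ μ (mulF_pos hμ fun n => hp (φ n)) (mulF_pos hμ fun n => hn (φ n)),
    Gop_mulF φ hμ _ hp, Gop_mulF φ hμ _ hn, ← map_sub, ← h1]

theorem Fop_uop (φ : N → Ω) {μ : Linf N →L[ℝ] ℝ} (hμ : Pos μ) (f : Ω →₁[measOf φ μ] ℝ) :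
    Fop φ μ (uop φ μ f) = f := by
  have hd := ContinuousMap.toLp_denseRange (p := 1) (μ := measOf φ μ) (E := ℝ) ℝ (by simp)
  refine hd.induction_on f ?_ ?_
  · exact isClosed_eq ((Fop φ μ).continuous.comp (uop φ μ).continuous) continuous_id
  · intro h
    rw [uop_toLp φ hμ, Fop_mulF φ hμ]

theorem exists_factor (φ : N → Ω) {μ : Linf N →L[ℝ] ℝ} (hμ : Pos μ) :
    ∃ Z : Submodule ℝ (Linf N →L[ℝ] ℝ), IsClosed (Z : Set (Linf N →L[ℝ] ℝ)) ∧
      IsSeparable (Z : Set (Linf N →L[ℝ] ℝ)) ∧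
      (∃ P : (Linf N →L[ℝ] ℝ) →L[ℝ] (Linf N →L[ℝ] ℝ), (∀ x, P x ∈ Z) ∧ ∀ z ∈ Z, P z = z) ∧
      ∀ h : C(Ω, ℝ), mulF μ (pull φ h) ∈ Z := by
  let P := (uop φ μ).comp (Fop φ μ)
  have hP : ∀ f, P (uop φ μ f) = uop φ μ f := fun f => by
    show uop φ μ (Fop φ μ (uop φ μ f)) = _
    rw [Fop_uop φ hμ]
  refine ⟨LinearMap.range (uop φ μ).toLinearMap, ?_, ?_, ⟨P, ?_, ?_⟩, ?_⟩
  · have : ((LinearMap.range (uop φ μ).toLinearMap : Submodule ℝ (Linf N →L[ℝ] ℝ)) :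
      Set (Linf N →L[ℝ] ℝ)) = {y | P y = y} := by
      ext y
      constructor
      · rintro ⟨f, rfl⟩
        exact hP f
      · intro hy
        exact ⟨Fop φ μ y, hy⟩
    rw [this]
    exact isClosed_eq P.continuous continuous_id
  · have : ((LinearMap.range (uop φ μ).toLinearMap : Submodule ℝ (Linf N →L[ℝ] ℝ)) :
      Set (Linf N →L[ℝ] ℝ)) = Set.range (uop φ μ) := by
      ext y
      simp
    rw [this]
    have hf : Fact ((1 : ℝ≥0∞) ≠ ∞) := ⟨by simp⟩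
    have hs : SecondCountableTopology (Ω →₁[measOf φ μ] ℝ) := Lp.SecondCountableTopology
    exact isSeparable_range (uop φ μ).continuous
  · intro x
    exact ⟨Fop φ μ x, rfl⟩
  · rintro _ ⟨f, rfl⟩
    exact hP f
  · intro h
    exact ⟨_, uop_toLp φ hμ h⟩

end Proj

end Pool.Agent.Helper130
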