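import Mathlib
import Pool.Agent.Helper130.Proj

open scoped ENNReal BigOperators Topology
open Filter MeasureTheory TopologicalSpace

namespace Pool.Agent.Helper130

/-- The dual of `ℓ∞(N)` has the separable complementation property. -/
theorem scp_dual_linf (N : Type) (S : Submodule ℝ (Linf N →L[ℝ] ℝ))
    (hS : IsSeparable (S : Set (Linf N →L[ℝ] ℝ))) :
    ∃ Z : Submodule ℝ (Linf N →L[ℝ] ℝ), S ≤ Z ∧ IsClosed (Z : Set (Linf N →L[ℝ] ℝ)) ∧
      IsSeparable (Z : Set (Linf N →L[ℝ] ℝ)) ∧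
      ∃ P : (Linf N →L[ℝ] ℝ) →L[ℝ] (Linf N →L[ℝ] ℝ), (∀ x, P x ∈ Z) ∧ ∀ z ∈ Z, P z = z := by
  obtain ⟨c, hc, hSc⟩ := hS
  have hne : c.Nonempty := by
    by_contra h
    rw [Set.not_nonempty_iff_eq_empty] at h
    rw [h, closure_empty] at hSc
    exact hSc S.zero_mem
  obtain ⟨ν, hν⟩ := hc.exists_eq_range hne
  -- the dominating positive functional
  let ρ : ℕ → (Linf N →L[ℝ] ℝ) := fun k => maj (ν k)
  let a : ℕ → ℝ := fun k => (1 / 2 : ℝ) ^ k * (1 + ‖ρ k‖)⁻¹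
  have hρp : ∀ k, 0 < 1 + ‖ρ k‖ := fun k => by positivity
  have ha : ∀ k, 0 < a k := fun k => by positivity
  have hsum : Summable (fun k => a k • ρ k) := by
    apply Summable.of_norm_bounded (g := fun k => (1 / 2 : ℝ) ^ k) summable_geometric_two
    intro k
    rw [norm_smul, Real.norm_eq_abs, abs_of_pos (ha k)]
    simp only [a]
    rw [mul_assoc]
    have h1 : (1 + ‖ρ k‖)⁻¹ * ‖ρ k‖ ≤ 1 := by
      rw [inv_mul_le_iff₀ (hρp k)]
      linarith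
    calc (1 / 2 : ℝ) ^ k * ((1 + ‖ρ k‖)⁻¹ * ‖ρ k‖) ≤ (1 / 2 : ℝ) ^ k * 1 := by gcongr
      _ = (1 / 2 : ℝ) ^ k := mul_one _
  set μ : Linf N →L[ℝ] ℝ := ∑' k, a k • ρ k with hμdef
  have hμsum : ∀ f, HasSum (fun k => a k * ρ k f) (μ f) := by
    intro f
    have := (ContinuousLinearMap.apply ℝ ℝ f).hasSum hsum.hasSum
    exact this
  have hle : ∀ k f, (∀ n, 0 ≤ f n) → a k * ρ k f ≤ μ f := by
    intro k f hf
    exact le_hasSum (hμsum f) k (fun j _ => mul_nonneg (ha j).le (pos_maj (ν j) f hf))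
  have hμ : Pos μ := fun f hf =>
    (hμsum f).nonneg (fun j => mul_nonneg (ha j).le (pos_maj (ν j) f hf))
  have hdom : ∀ k, ∀ f h : Linf N, (∀ n, |f n| ≤ h n) → |ν k f| ≤ (a k)⁻¹ * μ h := by
    intro k f h hfh
    have h1 : |ν k f| ≤ ρ k h := maj_spec (ν k) f h hfh
    have h2 := hle k h (fun n => (abs_nonneg _).trans (hfh n))
    calc |ν k f| ≤ ρ k h := h1
      _ = (a k)⁻¹ * (a k * ρ k h) := by rw [← mul_assoc, inv_mul_cancel₀ (ha k).ne', one_mul]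
      _ ≤ (a k)⁻¹ * μ h := by
        have := (ha k)
        gcongr
  -- the densities
  have hdens : ∀ p : ℕ × ℕ, ∃ f : Linf N, ∀ g : Linf N, ‖g‖ ≤ 1 →
      |ν p.1 g - μ (f * g)| ≤ 1 / ((p.2 : ℝ) + 1) := fun p =>
    exists_density hμ (inv_nonneg.2 (ha p.1).le) (hdom p.1) (by positivity)
  choose f hf using hdens
  let u : ℕ × ℕ → Linf N := fun p => (1 + ‖f p‖)⁻¹ • f p
  have hfp : ∀ p, 0 < 1 + ‖f p‖ := fun p => by positivity
  have hu : ∀ p n, u p n ∈ Set.Icc (-1 : ℝ) 1 := by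
    intro p n
    rw [Set.mem_Icc, ← abs_le]
    have : u p n = (1 + ‖f p‖)⁻¹ * f p n := rfl
    rw [this, abs_mul, abs_of_pos (inv_pos.2 (hfp p)), inv_mul_le_iff₀ (hfp p)]
    linarith [linf_apply_le (f p) n]
  let φ : N → (ℕ × ℕ → Set.Icc (-1 : ℝ) 1) := fun n p => ⟨u p n, hu p n⟩
  obtain ⟨Z, hZc, hZs, hP, hZ⟩ := exists_factor φ hμ
  refine ⟨Z, ?_, hZc, hZs, hP⟩
  have hfZ : ∀ p, mulF μ (f p) ∈ Z := by
    intro p
    have h1 : f p = (1 + ‖f p‖) • pull φ (⟨fun ω => (ω p : ℝ), by fun_prop⟩ :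
        C(ℕ × ℕ → Set.Icc (-1 : ℝ) 1, ℝ)) := by
      apply lp.ext
      funext n
      have h2 : ((1 + ‖f p‖) • pull φ (⟨fun ω => (ω p : ℝ), by fun_prop⟩ :
        C(ℕ × ℕ → Set.Icc (-1 : ℝ) 1, ℝ))) n = (1 + ‖f p‖) * ((1 + ‖f p‖)⁻¹ * f p n) := rfl
      rw [h2, ← mul_assoc, mul_inv_cancel₀ (hfp p).ne', one_mul]
    have h3 : mulF μ (f p) = (1 + ‖f p‖) • mulF μ (pull φ (⟨fun ω => (ω p : ℝ), by fun_prop⟩ :
        C(ℕ × ℕ → Set.Icc (-1 : ℝ) 1, ℝ))) := by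
      ext g
      conv_lhs => rw [h1]
      rw [mulF_apply, smul_mul_assoc, map_smul]
      rfl
    rw [h3]
    exact Z.smul_mem _ (hZ _)
  have hνZ : ∀ k, ν k ∈ Z := by
    intro k
    have hcl : ν k ∈ closure (Z : Set (Linf N →L[ℝ] ℝ)) := by
      rw [Metric.mem_closure_iff]
      intro ε hε
      obtain ⟨l, hl⟩ := exists_nat_one_div_lt hε
      refine ⟨mulF μ (f (k, l)), hfZ _, ?_⟩
      rw [dist_eq_norm]
      refine lt_of_le_of_lt ?_ hl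
      apply ContinuousLinearMap.opNorm_le_of_unit_norm (by positivity)
      intro g hg
      exact hf (k, l) g hg.le
    rwa [hZc.closure_eq] at hcl
  intro y hy
  have h1 : c ⊆ (Z : Set (Linf N →L[ℝ] ℝ)) := by
    rw [hν]
    rintro _ ⟨k, rfl⟩
    exact hνZ k
  have h2 := closure_mono h1 (hSc hy)
  rwa [hZc.closure_eq] at h2

end Pool.Agent.Helper130
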