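import Mathlib
import Pool.Agent.Helper130.Major

open scoped ENNReal BigOperators Topology
open Filter TopologicalSpace

namespace Pool.Agent.Helper130

/-- The pairing of `ℓ∞` and `ℓ¹`. -/
noncomputable def pair1 (N : Type) : Linf N →L[ℝ] (lp (fun _ : N => ℝ) 1 →L[ℝ] ℝ) :=
  lp.dualPairing ∞ 1 (fun _ => ContinuousLinearMap.mul ℝ ℝ) (K := 1)
    (fun _ => by simp)

theorem pair1_single (N : Type) [DecidableEq N] (g : Linf N) (n : N) (c : ℝ) :
    pair1 N g (lp.single 1 n c) = g n * c := by
  unfold pair1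
  rw [lp.dualPairing_apply, tsum_eq_single n]
  · rw [lp.single_apply_self]
    rfl
  · intro m hm
    rw [lp.single_apply_ne (E := fun _ : N => ℝ) 1 n c hm, map_zero]

/-- Slices of bounded functions. -/
noncomputable def slice (M : Type) (n : ℕ) : Linf (ℕ × M) →L[ℝ] Linf M :=
  LinearMap.mkContinuous
    { toFun := fun h => ⟨fun μ => h (n, μ), memℓp_infty ⟨‖h‖, by
        rintro _ ⟨μ, rfl⟩
        exact linf_apply_le h (n, μ)⟩⟩
      map_add' := fun h k => rfl
      map_smul' := fun c h => rfl }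
    1 (fun h => by
      rw [one_mul]
      exact linf_norm_le (norm_nonneg _) (fun μ => linf_apply_le h (n, μ)))

theorem slice_apply {M : Type} (n : ℕ) (h : Linf (ℕ × M)) (μ : M) :
    slice M n h μ = h (n, μ) := rfl

theorem norm_slice_le {M : Type} (n : ℕ) (h : Linf (ℕ × M)) : ‖slice M n h‖ ≤ ‖h‖ :=
  linf_norm_le (norm_nonneg _) (fun μ => linf_apply_le h (n, μ))

theorem slice_ext {M : Type} {h k : Linf (ℕ × M)} (H : ∀ n, slice M n h = slice M n k) : h = k := by
  apply lp.ext
  funext p
  obtain ⟨n, μ⟩ := p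
  rw [← slice_apply, ← slice_apply, H]

/-- Bounded sequences of bounded functions. -/
noncomputable def glue {M : Type} (G : ℕ → Linf M) (C : ℝ) (hG : ∀ n, ‖G n‖ ≤ C) :
    Linf (ℕ × M) :=
  ⟨fun p => G p.1 p.2, memℓp_infty ⟨C, by
        rintro _ ⟨p, rfl⟩
        exact (linf_apply_le (G p.1) p.2).trans (hG p.1)⟩⟩

theorem slice_glue {M : Type} (G : ℕ → Linf M) (C : ℝ) (hG : ∀ n, ‖G n‖ ≤ C) (n : ℕ) :
    slice M n (glue G C hG) = G n := rfl

/-- Uniformly bounded sequences of operators. -/
noncomputable def glueL {Y : Type} [NormedAddCommGroup Y] [NormedSpace ℝ Y] {M : Type}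
    (G : ℕ → (Y →L[ℝ] Linf M)) (C : ℝ) (hG : ∀ n y, ‖G n y‖ ≤ C * ‖y‖) :
    Y →L[ℝ] Linf (ℕ × M) :=
  LinearMap.mkContinuous
    { toFun := fun y => glue (fun n => G n y) (C * ‖y‖) (fun n => hG n y)
      map_add' := fun y z => by
        apply slice_ext
        intro n
        rw [map_add, slice_glue, slice_glue, slice_glue, map_add]
      map_smul' := fun c y => by
        apply slice_ext
        intro n
        rw [RingHom.id_apply, map_smul, slice_glue, slice_glue, map_smul] }
    C (fun y => by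
      apply linf_norm_le
      · exact (norm_nonneg _).trans (hG 0 y)
      · intro p
        exact (linf_apply_le (G p.1 y) p.2).trans (hG p.1 y))

theorem slice_glueL {Y : Type} [NormedAddCommGroup Y] [NormedSpace ℝ Y] {M : Type}
    (G : ℕ → (Y →L[ℝ] Linf M)) (C : ℝ) (hG : ∀ n y, ‖G n y‖ ≤ C * ‖y‖) (n : ℕ) (y : Y) :
    slice M n (glueL G C hG y) = G n y := rfl

/-- The decomposition method. -/
theorem pel {X : Type} [NormedAddCommGroup X] [NormedSpace ℝ X] {M : Type}
    (j : (X →L[ℝ] ℝ) →L[ℝ] Linf M) (ψ : Linf M →L[ℝ] (X →L[ℝ] ℝ)) (hψ : ∀ x, ψ (j x) = x) :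
    Nonempty (((X × lp (fun _ : ℕ × M => ℝ) 1) →L[ℝ] ℝ) ≃L[ℝ] Linf (ℕ × M)) := by
  classical
  let p : Linf M →L[ℝ] Linf M := j.comp ψ
  have hp : ∀ g, p g = j (ψ g) := fun g => rfl
  have hpp : ∀ g, p (p g) = p g := fun g => by rw [hp, hp, hψ]
  let G : ℕ → (Linf (ℕ × M) →L[ℝ] Linf M) := fun n =>
    p.comp (slice M (n + 1)) + (slice M n - p.comp (slice M n))
  have hG : ∀ n h, G n h = p (slice M (n + 1) h) + (slice M n h - p (slice M n h)) :=
    fun n h => rfl
  have hGb : ∀ n h, ‖G n h‖ ≤ (2 * ‖p‖ + 1) * ‖h‖ := by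
    intro n h
    rw [hG]
    have h1 : ‖p (slice M (n + 1) h)‖ ≤ ‖p‖ * ‖h‖ :=
      (p.le_opNorm _).trans (by gcongr; exact norm_slice_le _ _)
    have h2 : ‖p (slice M n h)‖ ≤ ‖p‖ * ‖h‖ :=
      (p.le_opNorm _).trans (by gcongr; exact norm_slice_le _ _)
    have h3 := norm_slice_le n h
    calc _ ≤ ‖p (slice M (n + 1) h)‖ + (‖slice M n h‖ + ‖p (slice M n h)‖) :=
          (norm_add_le _ _).trans (by gcongr; exact norm_sub_le _ _)
      _ ≤ (2 * ‖p‖ + 1) * ‖h‖ := by linarith
  let k : Linf (ℕ × M) →L[ℝ] Linf (ℕ × M) := glueL G _ hGb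
  have hk : ∀ n h, slice M n (k h) = p (slice M (n + 1) h) + (slice M n h - p (slice M n h)) :=
    fun n h => rfl
  let T : Linf (ℕ × M) →L[ℝ] ((X × lp (fun _ : ℕ × M => ℝ) 1) →L[ℝ] ℝ) :=
    (ContinuousLinearMap.coprodEquivL ℝ).toContinuousLinearMap.comp
      ((ψ.comp (slice M 0)).prod ((pair1 (ℕ × M)).comp k))
  have hT : ∀ h x a, T h (x, a) = ψ (slice M 0 h) x + pair1 (ℕ × M) (k h) a := fun h x a => rfl
  have hinj : T.ker = ⊥ := by
    rw [LinearMap.ker_eq_bot']
    intro h hh
    have hh' : T h = 0 := hh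
    have h0 : ψ (slice M 0 h) = 0 := by
      ext x
      have := congrArg (fun φ => φ (x, 0)) hh'
      simp only [hT, map_zero, add_zero] at this
      exact this
    have h1 : k h = 0 := by
      apply lp.ext
      funext q
      have := congrArg (fun φ => φ (0, lp.single 1 q 1)) hh'
      simp only [hT, map_zero, zero_add, pair1_single, mul_one] at this
      exact this
    have h2 : ∀ n, p (slice M (n + 1) h) + (slice M n h - p (slice M n h)) = 0 := by
      intro n
      rw [← hk, h1, map_zero]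
    have h3 : ∀ n, p (slice M (n + 1) h) = 0 := by
      intro n
      have := congrArg p (h2 n)
      rw [map_add, map_sub, hpp, hpp, sub_self, add_zero, map_zero] at this
      exact this
    have h4 : ∀ n, p (slice M n h) = 0 := by
      intro n
      cases n with
      | zero => rw [hp, h0, map_zero]
      | succ n => exact h3 n
    apply slice_ext
    intro n
    have := h2 n
    rw [h3, h4, zero_add, sub_zero] at this
    rw [this, map_zero]
  have hsurj : T.range = ⊤ := by
    rw [LinearMap.range_eq_top]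
    intro φ
    let xs : X →L[ℝ] ℝ := φ.comp (ContinuousLinearMap.inl ℝ X (lp (fun _ : ℕ × M => ℝ) 1))
    let g : Linf (ℕ × M) := ⟨fun q => φ (0, lp.single 1 q 1), memℓp_infty ⟨‖φ‖, by
      rintro _ ⟨q, rfl⟩
      calc ‖φ (0, lp.single 1 q 1)‖ ≤ ‖φ‖ * ‖((0 : X), (lp.single 1 q 1 : lp (fun _ : ℕ × M => ℝ) 1))‖ :=
            φ.le_opNorm _
        _ ≤ ‖φ‖ * 1 := by
          gcongr
          rw [Prod.norm_def]
          simp [lp.norm_single]
        _ = ‖φ‖ := mul_one _⟩⟩
    have hg : ∀ q, g q = φ (0, lp.single 1 q 1) := fun q => rfl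
    let H : ℕ → Linf M := fun n => Nat.casesOn n (j xs + (slice M 0 g - p (slice M 0 g)))
      (fun n => p (slice M n g) + (slice M (n + 1) g - p (slice M (n + 1) g)))
    have hH0 : H 0 = j xs + (slice M 0 g - p (slice M 0 g)) := rfl
    have hHs : ∀ n, H (n + 1) = p (slice M n g) + (slice M (n + 1) g - p (slice M (n + 1) g)) :=
      fun n => rfl
    have hpn : ∀ n, ‖p (slice M n g)‖ ≤ ‖p‖ * ‖g‖ := fun n =>
      (p.le_opNorm _).trans (by gcongr; exact norm_slice_le _ _)
    have hHb : ∀ n, ‖H n‖ ≤ ‖j xs‖ + (2 * ‖p‖ + 1) * ‖g‖ := by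
      intro n
      cases n with
      | zero =>
        rw [hH0]
        have h1 := norm_add_le (j xs) (slice M 0 g - p (slice M 0 g))
        have h2 := norm_sub_le (slice M 0 g) (p (slice M 0 g))
        have h3 := norm_slice_le 0 g
        have h4 := hpn 0
        have h5 : 0 ≤ ‖p‖ * ‖g‖ := by positivity
        linarith
      | succ n =>
        rw [hHs]
        have h1 := norm_add_le (p (slice M n g)) (slice M (n + 1) g - p (slice M (n + 1) g))
        have h2 := norm_sub_le (slice M (n + 1) g) (p (slice M (n + 1) g))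
        have h3 := norm_slice_le (n + 1) g
        have h4 := hpn n
        have h4' := hpn (n + 1)
        have h5 : 0 ≤ ‖j xs‖ := by positivity
        linarith
    let h : Linf (ℕ × M) := glue H _ hHb
    have hh : ∀ n, slice M n h = H n := fun n => rfl
    refine ⟨h, ?_⟩
    have hψp : ∀ a, ψ (p a) = ψ a := fun a => by rw [hp, hψ]
    have hpj : ∀ x, p (j x) = j x := fun x => by rw [hp, hψ]
    have e1 : ψ (slice M 0 h) = xs := by
      rw [hh, hH0, map_add, map_sub, hψp, sub_self, add_zero, hψ]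
    have e2 : k h = g := by
      apply slice_ext
      intro n
      rw [hk, hh, hh]
      have e3 : p (H (n + 1)) = p (slice M n g) := by
        rw [hHs, map_add, map_sub, hpp, hpp, sub_self, add_zero]
      have e4 : H n - p (H n) = slice M n g - p (slice M n g) := by
        cases n with
        | zero =>
          rw [hH0, map_add, map_sub, hpp, hpj]
          abel
        | succ n =>
          rw [hHs, map_add, map_sub, hpp, hpp]
          abel
      rw [e3, e4]
      abel
    have e5 : pair1 (ℕ × M) g = φ.comp (ContinuousLinearMap.inr ℝ X (lp (fun _ : ℕ × M => ℝ) 1)) := by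
      apply lp.ext_continuousLinearMap (by simp)
      intro q
      ext
      simp only [ContinuousLinearMap.comp_apply, lp.singleContinuousLinearMap_apply, pair1_single,
        mul_one, hg]
      rfl
    apply ContinuousLinearMap.ext
    rintro ⟨x, a⟩
    have : (T.toLinearMap h) (x, a) = ψ (slice M 0 h) x + pair1 (ℕ × M) (k h) a := rfl
    rw [show ((T : Linf (ℕ × M) →ₗ[ℝ] ((X × lp (fun _ : ℕ × M => ℝ) 1) →L[ℝ] ℝ)) h) (x, a) =
      ψ (slice M 0 h) x + pair1 (ℕ × M) (k h) a from rfl, e1, e2, e5]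
    simp only [xs, ContinuousLinearMap.comp_apply, ContinuousLinearMap.inl_apply,
      ContinuousLinearMap.inr_apply, ← map_add]
    simp
  exact ⟨(ContinuousLinearEquiv.ofBijective T hinj hsurj).symm⟩

end Pool.Agent.Helper130
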