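import Mathlib

open scoped ENNReal BigOperators
open RCLike TopologicalSpace

namespace Pool.Agent.Helper130

section LpMap

variable {𝕜 : Type*} [NontriviallyNormedField 𝕜] {α : Type*} {E F : α → Type*}
  [∀ i, NormedAddCommGroup (E i)] [∀ i, NormedSpace 𝕜 (E i)]
  [∀ i, NormedAddCommGroup (F i)] [∀ i, NormedSpace 𝕜 (F i)]

/-- The coordinatewise action of a family of contractions on an `lp` space. -/
noncomputable def lpMap (p : ℝ≥0∞) [Fact (1 ≤ p)] (T : ∀ i, E i →ₗ[𝕜] F i)
    (hT : ∀ i x, ‖T i x‖ ≤ ‖x‖) : lp E p →L[𝕜] lp F p :=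
  LinearMap.mkContinuous
    { toFun := fun f => ⟨fun i => T i (f i), (lp.memℓp f).mono' fun i => hT i _⟩
      map_add' := fun f g => by
        ext i
        exact map_add (T i) (f i) (g i)
      map_smul' := fun c f => by
        ext i
        exact map_smul (T i) c (f i) }
    1 (fun f => by
      have hp : p ≠ 0 := (zero_lt_one.trans_le Fact.out).ne'
      rw [one_mul]
      exact lp.norm_mono hp fun i => hT i _)

@[simp] theorem lpMap_apply (p : ℝ≥0∞) [Fact (1 ≤ p)] (T : ∀ i, E i →ₗ[𝕜] F i)
    (hT : ∀ i x, ‖T i x‖ ≤ ‖x‖) (f : lp E p) (i : α) : lpMap p T hT f i = T i (f i) := rfl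

theorem norm_lpMap_apply_le (p : ℝ≥0∞) [Fact (1 ≤ p)] (T : ∀ i, E i →ₗ[𝕜] F i)
    (hT : ∀ i x, ‖T i x‖ ≤ ‖x‖) (f : lp E p) : ‖lpMap p T hT f‖ ≤ ‖f‖ := by
  have hp : p ≠ 0 := (zero_lt_one.trans_le Fact.out).ne'
  exact lp.norm_mono hp fun i => hT i _

/-- Restriction of families to a set of indices. -/
noncomputable def lpCut (𝕜 : Type*) [NontriviallyNormedField 𝕜] {α : Type*} {E : α → Type*}
    [∀ i, NormedAddCommGroup (E i)] [∀ i, NormedSpace 𝕜 (E i)]
    (p : ℝ≥0∞) [Fact (1 ≤ p)] (A : Set α) [DecidablePred (· ∈ A)] :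
    lp E p →L[𝕜] lp E p :=
  lpMap p (fun i => if i ∈ A then LinearMap.id else 0) (fun i x => by
    by_cases h : i ∈ A <;> simp [h])

theorem lpCut_apply (p : ℝ≥0∞) [Fact (1 ≤ p)] (A : Set α) [DecidablePred (· ∈ A)]
    (f : lp E p) (i : α) : lpCut 𝕜 p A f i = if i ∈ A then f i else 0 := by
  by_cases h : i ∈ A <;> simp [lpCut, h]

end LpMap

section Sep

theorem isSeparable_of_image {X Y : Type*} [TopologicalSpace X] [TopologicalSpace Y]
    [PseudoMetrizableSpace Y] {f : X → Y} (hf : Topology.IsInducing f) {s : Set X}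
    (hs : IsSeparable (f '' s)) : IsSeparable s := by
  have : SecondCountableTopology (f '' s) := hs.secondCountableTopology
  let g : s → f '' s := fun x => ⟨f x, Set.mem_image_of_mem f x.2⟩
  have hg : Topology.IsInducing g := by
    rw [Topology.isInducing_iff]
    have h1 : (instTopologicalSpaceSubtype : TopologicalSpace s) =
        TopologicalSpace.induced (fun x : s => f x) inferInstance := by
      rw [show (fun x : s => f x) = f ∘ Subtype.val from rfl, ← induced_compose, ← hf.eq_induced]
      rfl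
    rw [h1]
    change _ = TopologicalSpace.induced g (TopologicalSpace.induced Subtype.val _)
    rw [induced_compose]
    rfl
  have : SecondCountableTopology s := hg.secondCountableTopology
  exact IsSeparable.of_subtype s

end Sep

end Pool.Agent.Helper130
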