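import Mathlib
import Pool.Agent.Helper130.Comb

open scoped ENNReal BigOperators Topology
open Filter Finset

namespace Pool.Agent.Helper130

/-- Walsh characters, on finite sets. -/
noncomputable def wal (S T : Finset ℕ) : ℝ := ∏ k ∈ S, (if k ∈ T then (-1 : ℝ) else 1)

theorem wal_eq (S T : Finset ℕ) : wal S T = (-1) ^ (S ∩ T).card := by
  unfold wal
  rw [Finset.prod_ite, Finset.prod_const_one, mul_one, Finset.prod_const,
    Finset.filter_mem_eq_inter]

theorem wal_comm (S T : Finset ℕ) : wal S T = wal T S := by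
  rw [wal_eq, wal_eq, Finset.inter_comm]

theorem abs_wal (S T : Finset ℕ) : |wal S T| = 1 := by
  rw [wal_eq, abs_pow]
  simp

theorem wal_mul_self (S T : Finset ℕ) : wal S T * wal S T = 1 := by
  rw [← abs_mul_abs_self, abs_wal, one_mul]

theorem sum_wal_mul (B S S' : Finset ℕ) (hS : S ⊆ B) (hS' : S' ⊆ B) :
    ∑ T ∈ B.powerset, wal S T * wal S' T = if S = S' then (2 : ℝ) ^ B.card else 0 := by
  have h1 : ∀ T ∈ B.powerset, wal S T * wal S' T =
      ∏ k ∈ T, ((if k ∈ S then (-1 : ℝ) else 1) * (if k ∈ S' then (-1 : ℝ) else 1)) := by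
    intro T _
    rw [wal_comm S T, wal_comm S' T, Finset.prod_mul_distrib]
    rfl
  rw [Finset.sum_congr rfl h1, ← Finset.prod_one_add]
  split_ifs with h
  · subst h
    rw [← Finset.prod_const]
    apply Finset.prod_congr rfl
    intro k _
    by_cases hk : k ∈ S
    · simp [hk]; norm_num
    · simp [hk]; norm_num
  · obtain ⟨k, hk⟩ : ∃ k, ¬ (k ∈ S ↔ k ∈ S') := by
      by_contra hcon
      push Not at hcon
      exact h (Finset.ext hcon)
    have hkB : k ∈ B := by
      by_cases h1 : k ∈ S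
      · exact hS h1
      · by_cases h2 : k ∈ S'
        · exact hS' h2
        · exact absurd (by simp [h1, h2]) hk
    apply Finset.prod_eq_zero hkB
    by_cases h1 : k ∈ S
    · have h2 : k ∉ S' := fun h2 => hk (by simp [h1, h2])
      simp [h1, h2]
    · have h2 : k ∈ S' := by
        by_contra h2
        exact hk (by simp [h1, h2])
      simp [h1, h2]

theorem sum_wal_mul_nonneg (B s T : Finset ℕ) : 0 ≤ ∑ S ∈ B.powerset, wal S s * wal S T := by
  have h1 : ∀ S ∈ B.powerset, wal S s * wal S T =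
      ∏ k ∈ S, ((if k ∈ s then (-1 : ℝ) else 1) * (if k ∈ T then (-1 : ℝ) else 1)) := by
    intro S _
    rw [Finset.prod_mul_distrib]
    rfl
  rw [Finset.sum_congr rfl h1, ← Finset.prod_one_add]
  apply Finset.prod_nonneg
  intro k _
  by_cases h1 : k ∈ s <;> by_cases h2 : k ∈ T <;> simp [h1, h2] <;> norm_num

/-- The level spaces. -/
abbrev I1 : Type := lp (fun _ : Finset ℕ => ℝ) 1

/-- The ambient Banach space. -/
abbrev EE : Type := lp (fun _ : ℕ => I1) ∞

/-- Functions supported on the subsets of `range n`. -/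
noncomputable def fin (n : ℕ) (f : Finset ℕ → ℝ) : I1 :=
  ∑ T ∈ (range n).powerset, lp.single (E := fun _ : Finset ℕ => ℝ) 1 T (f T)

theorem fin_apply (n : ℕ) (f : Finset ℕ → ℝ) (T : Finset ℕ) :
    fin n f T = if T ⊆ range n then f T else 0 := by
  unfold fin
  rw [lp.coeFn_sum, Finset.sum_apply]
  split_ifs with h
  · rw [Finset.sum_eq_single T]
    · exact lp.single_apply_self (E := fun _ : Finset ℕ => ℝ) 1 T (f T)
    · intro T' _ hne
      exact lp.single_apply_ne (E := fun _ : Finset ℕ => ℝ) 1 T' (f T') hne.symm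
    · intro h'
      exact absurd (Finset.mem_powerset.2 h) h'
  · apply Finset.sum_eq_zero
    intro T' hT'
    apply lp.single_apply_ne (E := fun _ : Finset ℕ => ℝ) 1 T' (f T')
    rintro rfl
    exact h (Finset.mem_powerset.1 hT')

theorem norm_fin_le (n : ℕ) (f : Finset ℕ → ℝ) :
    ‖fin n f‖ ≤ ∑ T ∈ (range n).powerset, |f T| := by
  unfold fin
  refine (norm_sum_le _ _).trans ?_
  apply Finset.sum_le_sum
  intro T _
  rw [lp.norm_single (E := fun _ : Finset ℕ => ℝ) zero_lt_one]
  rfl

theorem norm_wfin_le (n : ℕ) (S : Finset ℕ) :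
    ‖fin n (fun T => (2 : ℝ)⁻¹ ^ n * wal S T)‖ ≤ 1 := by
  refine (norm_fin_le _ _).trans ?_
  have h1 : ∀ T ∈ (range n).powerset, |(2 : ℝ)⁻¹ ^ n * wal S T| = (2 : ℝ)⁻¹ ^ n := by
    intro T _
    rw [abs_mul, abs_wal, mul_one, abs_of_nonneg (by positivity)]
  rw [Finset.sum_congr rfl h1, Finset.sum_const, Finset.card_powerset, Finset.card_range,
    nsmul_eq_mul]
  push_cast
  rw [← mul_pow]
  norm_num

/-- Walsh functions as elements of the ambient space. -/
noncomputable def wE (S : Finset ℕ) : EE :=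
  ⟨fun n => if S ⊆ range n then fin n (fun T => (2 : ℝ)⁻¹ ^ n * wal S T) else 0,
    memℓp_infty ⟨1, by
      rintro _ ⟨n, rfl⟩
      simp only
      split_ifs
      · exact norm_wfin_le n S
      · simp⟩⟩

theorem wE_apply (S : Finset ℕ) (n : ℕ) :
    wE S n = if S ⊆ range n then fin n (fun T => (2 : ℝ)⁻¹ ^ n * wal S T) else 0 := rfl

theorem wE_apply_apply (S : Finset ℕ) (n : ℕ) (T : Finset ℕ) :
    (wE S n) T = if S ⊆ range n ∧ T ⊆ range n then (2 : ℝ)⁻¹ ^ n * wal S T else 0 := by
  rw [wE_apply]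
  by_cases h1 : S ⊆ range n
  · rw [if_pos h1, fin_apply]
    by_cases h2 : T ⊆ range n <;> simp [h1, h2]
  · rw [if_neg h1, if_neg (fun h => h1 h.1)]
    rfl

/-- The kernels. -/
noncomputable def hB (B s : Finset ℕ) : EE := ∑ S ∈ B.powerset, wal S s • wE S

theorem hB_apply (B s : Finset ℕ) (n : ℕ) :
    hB B s n = fin n (fun T => (2 : ℝ)⁻¹ ^ n *
      ∑ S ∈ (B ∩ range n).powerset, wal S s * wal S T) := by
  apply lp.ext
  funext T
  have h1 : (hB B s n) T = ∑ S ∈ B.powerset, wal S s * (wE S n) T := by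
    unfold hB
    rw [lp.coeFn_sum, Finset.sum_apply, lp.coeFn_sum, Finset.sum_apply]
    rfl
  rw [h1, fin_apply]
  split_ifs with hT
  · have h2 : ∀ S ∈ B.powerset, wal S s * (wE S n) T =
        if S ⊆ range n then (2 : ℝ)⁻¹ ^ n * (wal S s * wal S T) else 0 := by
      intro S _
      rw [wE_apply_apply]
      by_cases h3 : S ⊆ range n
      · simp only [h3, hT, and_self, if_true]; ring
      · simp [h3]
    rw [Finset.sum_congr rfl h2, ← Finset.sum_filter, Finset.mul_sum]
    apply Finset.sum_congr _ (fun _ _ => rfl)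
    ext S
    simp only [Finset.mem_filter, Finset.mem_powerset, Finset.subset_inter_iff]
  · apply Finset.sum_eq_zero
    intro S _
    rw [wE_apply_apply, if_neg (fun h => hT h.2), mul_zero]

theorem norm_hB_le (B s : Finset ℕ) : ‖hB B s‖ ≤ 1 := by
  apply lp.norm_le_of_forall_le zero_le_one
  intro n
  rw [hB_apply]
  refine (norm_fin_le _ _).trans ?_
  have h1 : ∀ T ∈ (range n).powerset,
      |(2 : ℝ)⁻¹ ^ n * ∑ S ∈ (B ∩ range n).powerset, wal S s * wal S T| =
      ∑ S ∈ (B ∩ range n).powerset, (2 : ℝ)⁻¹ ^ n * wal S s * (wal S T * wal ∅ T) := by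
    intro T _
    rw [abs_of_nonneg (mul_nonneg (by positivity) (sum_wal_mul_nonneg _ _ _)), Finset.mul_sum]
    apply Finset.sum_congr rfl
    intro S _
    have : wal ∅ T = 1 := by simp [wal]
    rw [this]
    ring
  rw [Finset.sum_congr rfl h1, Finset.sum_comm]
  have h2 : ∀ S ∈ (B ∩ range n).powerset,
      ∑ T ∈ (range n).powerset, (2 : ℝ)⁻¹ ^ n * wal S s * (wal S T * wal ∅ T) =
      if S = ∅ then 1 else 0 := by
    intro S hS
    rw [← Finset.mul_sum, sum_wal_mul (range n) S ∅
      ((Finset.mem_powerset.1 hS).trans Finset.inter_subset_right) (Finset.empty_subset _),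
      Finset.card_range]
    split_ifs with h
    · subst h
      have : wal ∅ s = 1 := by simp [wal]
      rw [this, mul_one, ← mul_pow]
      norm_num
    · rw [mul_zero]
  rw [Finset.sum_congr rfl h2, Finset.sum_ite_eq']
  split_ifs <;> norm_num

/-- The evaluations. -/
noncomputable def cE (m : ℕ) (s : Finset ℕ) : EE →L[ℝ] ℝ :=
  (lp.evalCLM ℝ (fun _ : Finset ℕ => ℝ) 1 s).comp (lp.evalCLM ℝ (fun _ : ℕ => I1) ∞ m)

theorem cE_apply (m : ℕ) (s : Finset ℕ) (x : EE) : cE m s x = x m s := rfl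

theorem sum_cE_le (m : ℕ) (x : EE) : ∑ s ∈ (range m).powerset, |cE m s x| ≤ ‖x‖ := by
  have h1 : ∑ s ∈ (range m).powerset, ‖(x m) s‖ ≤ ‖x m‖ := sum_norm_le_norm_one (x m) _
  have h2 : ‖x m‖ ≤ ‖x‖ := lp.norm_apply_le_norm (by simp) x m
  exact h1.trans h2

theorem key (m : ℕ) (B : Finset ℕ) (hBm : B ⊆ range m) (T₀ : Finset ℕ) :
    ∑ s ∈ (range m).powerset, cE m s (wE T₀) • hB B s = if T₀ ⊆ B then wE T₀ else 0 := by
  by_cases hT : T₀ ⊆ range m
  · have h1 : ∀ s ∈ (range m).powerset, cE m s (wE T₀) • hB B s =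
        ∑ S ∈ B.powerset, ((2 : ℝ)⁻¹ ^ m * (wal T₀ s * wal S s)) • wE S := by
      intro s hs
      rw [cE_apply, wE_apply_apply, if_pos ⟨hT, Finset.mem_powerset.1 hs⟩]
      unfold hB
      rw [Finset.smul_sum]
      apply Finset.sum_congr rfl
      intro S _
      rw [smul_smul]
      congr 1
      ring
    rw [Finset.sum_congr rfl h1, Finset.sum_comm]
    have h2 : ∀ S ∈ B.powerset,
        ∑ s ∈ (range m).powerset, ((2 : ℝ)⁻¹ ^ m * (wal T₀ s * wal S s)) • wE S =
        if S = T₀ then wE T₀ else 0 := by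
      intro S hS
      rw [← Finset.sum_smul, ← Finset.mul_sum, sum_wal_mul (range m) T₀ S hT
        ((Finset.mem_powerset.1 hS).trans hBm), Finset.card_range]
      by_cases h : S = T₀
      · rw [if_pos h, if_pos h.symm, ← mul_pow, h]
        norm_num
      · rw [if_neg h, if_neg (Ne.symm h), mul_zero, zero_smul]
    rw [Finset.sum_congr rfl h2, Finset.sum_ite_eq']
    simp only [Finset.mem_powerset]
  · rw [if_neg (fun h => hT (h.trans hBm))]
    apply Finset.sum_eq_zero
    intro s _
    rw [cE_apply, wE_apply_apply, if_neg (fun h => hT h.1), zero_smul]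

/-- The approximating operators. -/
noncomputable def DE (m : ℕ) : EE →L[ℝ] EE :=
  ∑ s ∈ (range m).powerset, (cE m s).smulRight (hB (range m) s)

theorem DE_apply (m : ℕ) (x : EE) :
    DE m x = ∑ s ∈ (range m).powerset, cE m s x • hB (range m) s := by
  unfold DE
  simp only [FunLike.coe_sum, Finset.sum_apply, ContinuousLinearMap.smulRight_apply]

theorem norm_DE_le (m : ℕ) (x : EE) : ‖DE m x‖ ≤ ‖x‖ := by
  rw [DE_apply]
  calc _ ≤ ∑ s ∈ (range m).powerset, ‖cE m s x • hB (range m) s‖ := norm_sum_le _ _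
    _ ≤ ∑ s ∈ (range m).powerset, |cE m s x| := by
      apply Finset.sum_le_sum
      intro s _
      rw [norm_smul, Real.norm_eq_abs]
      calc _ ≤ |cE m s x| * 1 := by gcongr; exact norm_hB_le _ _
        _ = _ := mul_one _
    _ ≤ ‖x‖ := sum_cE_le m x

theorem DE_wE (m : ℕ) (T : Finset ℕ) : DE m (wE T) = if T ⊆ range m then wE T else 0 := by
  rw [DE_apply, key m (range m) subset_rfl]

/-- The closed span of the Walsh functions of a set. -/
noncomputable def FF (A : Set ℕ) : Submodule ℝ EE :=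
  (Submodule.span ℝ (wE '' {S | (S : Set ℕ) ⊆ A})).topologicalClosure

theorem isClosed_FF (A : Set ℕ) : IsClosed (FF A : Set EE) :=
  Submodule.isClosed_topologicalClosure _

theorem wE_mem_FF {A : Set ℕ} {S : Finset ℕ} (h : (S : Set ℕ) ⊆ A) : wE S ∈ FF A :=
  Submodule.le_topologicalClosure _ (Submodule.subset_span ⟨S, h, rfl⟩)

theorem FF_induction {A : Set ℕ} {f g : EE →L[ℝ] EE}
    (h : ∀ S : Finset ℕ, (S : Set ℕ) ⊆ A → f (wE S) = g (wE S)) :
    ∀ x ∈ FF A, f x = g x := by
  have h1 : FF A ≤ LinearMap.ker (f - g).toLinearMap := by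
    apply Submodule.topologicalClosure_minimal
    · rw [Submodule.span_le]
      rintro _ ⟨S, hS, rfl⟩
      show (f - g) (wE S) = 0
      rw [sub_apply, h S hS, sub_self]
    · exact (f - g).isClosed_ker
  intro x hx
  have := h1 hx
  have h2 : (f - g) x = 0 := this
  rwa [sub_apply, sub_eq_zero] at h2

open Classical in
/-- The kernels of a set. -/
noncomputable def hh (A : Set ℕ) (m : ℕ) (s : Finset ℕ) : EE := hB ((range m).filter (· ∈ A)) s

theorem norm_hh_le (A : Set ℕ) (m : ℕ) (s : Finset ℕ) : ‖hh A m s‖ ≤ 1 := norm_hB_le _ _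

theorem hh_mem {A B : Set ℕ} {m : ℕ} (h : ∀ k ∈ A, k < m → k ∈ B) (s : Finset ℕ) :
    hh A m s ∈ FF B := by
  classical
  unfold hh hB
  apply Submodule.sum_mem
  intro S hS
  apply Submodule.smul_mem
  apply wE_mem_FF
  intro k hk
  have := Finset.mem_powerset.1 hS hk
  rw [Finset.mem_filter, Finset.mem_range] at this
  exact h k this.2 this.1

theorem sum_hh (A : Set ℕ) (m : ℕ) : ∀ x ∈ FF A,
    ∑ s ∈ (range m).powerset, cE m s x • hh A m s = DE m x := by
  classical
  have h1 := FF_induction (A := A)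
    (f := ∑ s ∈ (range m).powerset, (cE m s).smulRight (hh A m s)) (g := DE m) (by
      intro S hS
      simp only [FunLike.coe_sum, Finset.sum_apply, ContinuousLinearMap.smulRight_apply]
      rw [DE_wE]
      unfold hh
      rw [key m _ (Finset.filter_subset _ _)]
      congr 1
      apply propext
      constructor
      · intro h
        exact h.trans (Finset.filter_subset _ _)
      · intro h k hk
        rw [Finset.mem_filter]
        exact ⟨h hk, hS hk⟩)
  intro x hx
  have := h1 x hx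
  rw [← this]
  simp only [FunLike.coe_sum, Finset.sum_apply, ContinuousLinearMap.smulRight_apply]

theorem tendsto_DE (A : Set ℕ) : ∀ x ∈ FF A, Tendsto (fun m => DE m x) atTop (𝓝 x) := by
  have h1 : ∀ x ∈ Submodule.span ℝ (wE '' {S | (S : Set ℕ) ⊆ A}),
      Tendsto (fun m => DE m x) atTop (𝓝 x) := by
    intro x hx
    induction hx using Submodule.span_induction with
    | mem x hx =>
      obtain ⟨S, _, rfl⟩ := hx
      apply tendsto_const_nhds.congr'
      filter_upwards [eventually_ge_atTop (S.sup id + 1)] with m hm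
      rw [DE_wE, if_pos]
      intro k hk
      rw [Finset.mem_range]
      have : k ≤ S.sup id := Finset.le_sup (f := id) hk
      omega
    | zero => simp
    | add x y _ _ hx hy =>
      simp only [map_add]
      exact hx.add hy
    | smul a x _ hx =>
      simp only [map_smul]
      exact hx.const_smul a
  intro x hx
  rw [Metric.tendsto_atTop]
  intro ε hε
  have hx' : x ∈ closure (Submodule.span ℝ (wE '' {S | (S : Set ℕ) ⊆ A}) : Set EE) := hx
  rw [Metric.mem_closure_iff] at hx'
  obtain ⟨y, hy, hxy⟩ := hx' (ε / 3) (by positivity)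
  obtain ⟨N, hN⟩ := Metric.tendsto_atTop.1 (h1 y hy) (ε / 3) (by positivity)
  refine ⟨N, fun m hm => ?_⟩
  have e1 : dist (DE m x) (DE m y) ≤ dist x y := by
    rw [dist_eq_norm, dist_eq_norm, ← map_sub]
    exact norm_DE_le m _
  calc dist (DE m x) x ≤ dist (DE m x) (DE m y) + dist (DE m y) y + dist y x :=
        dist_triangle4 _ _ _ _
    _ < ε / 3 + ε / 3 + ε / 3 := by
      rw [dist_comm y x]
      have := hN m hm
      linarith
    _ = ε := by ring

end Pool.Agent.Helper130
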